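import Pool.Agent.TH742.HP.Lower

set_option autoImplicit false

/-!
A necessary condition: every `α` that is good for `t` is greater than `1 - 1/(2t)`.
-/

namespace Pool.Agent.Results.MP_61e9ba_co.ThresholdLower

open Pool.Agent.TH742.HP

/-- If `α` is good for `t` (for all large `k` and all `n ≥ k`, every `α`-subgraph of `C_n^k`
contains the `t`-th power of a Hamilton cycle), then `α > 1 - 1/(2t)`. -/
theorem result : ∀ t : ℕ, 1 ≤ t → ∀ α : ℝ, Good t α → 1 - 1 / (2 * (t : ℝ)) < α :=
  fun t ht α h => lower t ht α h

end Pool.Agent.Results.MP_61e9ba_co.ThresholdLower
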