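import Pool.Agent.TH742.HP.Upper

set_option autoImplicit false

/-!
A sufficient condition: every `α > 1 - 1/(20t)` is good for `t`.
-/

namespace Pool.Agent.Results.MP_61e9ba_co.ThresholdUpper

open Pool.Agent.TH742.HP

/-- Every `α > 1 - 1/(20t)` is good for `t`: for all large `k` and all `n ≥ k`, every
`α`-subgraph of `C_n^k` contains the `t`-th power of a Hamilton cycle. -/
theorem result : ∀ t : ℕ, 1 ≤ t → ∀ α : ℝ, 1 - 1 / (20 * (t : ℝ)) < α → Good t α :=
  fun t ht α h => upper t ht α h

end Pool.Agent.Results.MP_61e9ba_co.ThresholdUpper
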